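import Pool.Agent.AutLC.Discrete
import Pool.Agent.AutLC.Surj

set_option autoImplicit false

namespace Pool.Agent.Results.MP_acac23_al.CompactCounterexample

universe u

/-- There is a finite group `A` of order 1100 that is the group of all topological automorphisms
of a compact Hausdorff group, but is not the automorphism group of any abstract group. -/
theorem result :
    ∃ (A : Type) (_ : Group A) (_ : Finite A), Nat.card A = 1100 ∧
      (∃ (G : Type) (_ : Group G) (_ : TopologicalSpace G) (_ : IsTopologicalGroup G)
          (_ : CompactSpace G) (_ : T2Space G) (e : A ≃ (G ≃ₜ* G)),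
          ∀ a b : A, ∀ g : G, e (a * b) g = e a (e b g)) ∧
      ∀ (H : Type u) [Group H], IsEmpty (MulAut H ≃* A) := by
  refine ⟨Pool.Agent.AutLC.A, inferInstance, inferInstance, ?_, ?_, ?_⟩
  · rw [Nat.card_prod, Pool.Agent.AutLC.Aff.card, DihedralGroup.nat_card]
  · refine ⟨Pool.Agent.AutLC.G, inferInstance, inferInstance, inferInstance, inferInstance,
      inferInstance, Pool.Agent.AutLC.eqv, ?_⟩
    intro a b g
    exact Pool.Agent.AutLC.act_mul a b g
  · intro H _
    exact Pool.Agent.AutLC.no_discrete

end Pool.Agent.Results.MP_acac23_al.CompactCounterexample
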